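import Pool.Agent.H125Z.ONL.One
import Pool.Agent.H125Z.ONL.Defs2

set_option autoImplicit false

open MeasureTheory
open scoped ENNReal

namespace Pool.Agent.Results.MP_e081a1_an.AExactRange

open Pool.Agent.H125Z.ONL2

theorem result (𝕜 E : Type) [RCLike 𝕜] [NormedAddCommGroup E] [NormedSpace 𝕜 E] [Nontrivial E]
    (p : ℝ≥0∞) [Fact (1 ≤ p)] (hp : p ≠ ⊤) :
    (∀ (X : Type) [MetricSpace X] [MeasurableSpace X] [BorelSpace X],
      BddGeom X → HasONL 𝕜 E p X → PropertyA X) ↔ 1 < p :=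
  Pool.Agent.H125Z.ONL.main 𝕜 E p hp

end Pool.Agent.Results.MP_e081a1_an.AExactRange
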